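import Pool.Agent.H88.God.Multi

set_option autoImplicit false

/-!
# Faithful covers of weights with a ratio of up to 4 / 3 or 5 / 3 on 4-edge-connected graphs

`MGraph V E` is a finite graph with loops and parallel edges, `G.ends e` is the unordered pair of
the ends of `e`, `G.IsCircuit C` says that `C` is the edge set of a circuit; `cut G X` is the set
of the edges with exactly one end in `X`.

Let every nonempty edge cut of `G` have at least four edges, and let `w` be an eulerian weight (for
instance a weight with even values only) with

  `6 n + 3 m ≤ ⌊w(e) / 2⌋ ≤ 10 n + 4 m` for all edges `e`,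

where `n = 0` or `m ≥ 3`. Then `(G, w)` has a faithful cover. For `n = 0` these are all weights
within a factor `4 / 3` with `⌊w / 2⌋ ≥ 3 m`, for instance all eulerian weights with values in
`{6, 7, 8, 9}`.

The proof rests on the following lemma (`Pool.Agent.H88.God.exists_two_colouring`): if every
fundamental cut of a spanning tree has at least three edges outside the tree, then the edges
outside the tree can be coloured with two colours such that every fundamental cut has edges of
both colours.
-/

namespace Pool.Agent.Results.MP_2c3f2e_co.FourEdgeConnected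

open Finset
open Pool.Agent.H126R2.CDC (MGraph)
open Pool.Agent.H655R2.GOD (cut)

theorem result {V E : Type} [Fintype V] [DecidableEq V] [Fintype E] [DecidableEq E]
    (G : MGraph V E) (hc : ∀ X : Finset V, cut G X = ∅ ∨ 4 ≤ (cut G X).card)
    (w : E → ℕ) (heul : ∀ X : Finset V, Even (∑ e ∈ cut G X, w e)) (n m : ℕ)
    (hnm : n = 0 ∨ 3 ≤ m) (hq : ∀ e, 6 * n + 3 * m ≤ w e / 2 ∧ w e / 2 ≤ 10 * n + 4 * m) :
    ∃ F : Multiset (Finset E), (∀ C ∈ F, G.IsCircuit C) ∧
      ∀ e, F.countP (fun C => e ∈ C) = w e := by
  refine Pool.Agent.H88.God.many_cover G 4 2 1 (le_refl 4) hc (by norm_num) (by norm_num) w heul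
    (fun e => w e / 2) 1 (Or.inl (fun e => ?_)) n m ?_ (fun e => ?_)
  · show w e = 2 * (w e / 2) + 1 * (w e % 2)
    omega
  · rcases hnm with h | h
    · exact Or.inl h
    · right; omega
  · have h := hq e
    refine ⟨?_, ?_⟩
    · show (2 + 1) * (2 * n + m) ≤ w e / 2
      omega
    · show w e / 2 ≤ (2 + 1) * (2 * n + m) + (2 - 1) * (4 * n + m)
      omega

end Pool.Agent.Results.MP_2c3f2e_co.FourEdgeConnected
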