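import Pool.Agent.H88.God.Trails

set_option autoImplicit false

/-!
# Faithful covers of weights within a factor two, small weights included

`MGraph V E` is a finite graph with loops and parallel edges, `G.ends e` is the unordered pair of
the ends of `e`, `G.IsCircuit C` says that `C` is the edge set of a circuit, `G.IsEven D` that
every vertex has even degree in `D` (a loop counts twice); `cut G X` is the set of the edges with
exactly one end in `X`.

Let `w` be an eulerian weight with `k ≤ ⌊w(e) / 2⌋ ≤ 2 k` for all edges `e`, for some `k`; for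
`k = 1` these are the eulerian weights with values in `{2, 3, 4, 5}`. If every nonempty edge cut
of `G` has at least six edges, or if `G` has three even subgraphs such that each of them meets
every nonempty edge cut and such that every edge is in none or in exactly two of them (such as
the three Hamiltonian circuits of a cubic graph with a 3-edge-colouring all of whose pairs of
colours give Hamiltonian circuits), then `(G, w)` has a faithful circuit cover.
-/

namespace Pool.Agent.Results.MP_2c3f2e_co.ThreeTrails

open Finset
open Pool.Agent.H126R2.CDC (MGraph)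
open Pool.Agent.H655R2.GOD (cut)

theorem result {V E : Type} [Fintype V] [DecidableEq V] [Fintype E] [DecidableEq E]
    (G : MGraph V E) (w : E → ℕ) (heul : ∀ X : Finset V, Even (∑ e ∈ cut G X, w e))
    (k : ℕ) (hk : ∀ e, k ≤ w e / 2 ∧ w e / 2 ≤ 2 * k)
    (h : (∀ X : Finset V, cut G X = ∅ ∨ 6 ≤ (cut G X).card) ∨
      ∃ Φ : Fin 3 → Finset E, (∀ i, G.IsEven (Φ i)) ∧
        (∀ i, ∀ X : Finset V, cut G X ≠ ∅ → (Φ i ∩ cut G X).Nonempty) ∧
        ∀ e, e ∈ Φ 2 ↔ ¬ (e ∈ Φ 0 ↔ e ∈ Φ 1)) :
    ∃ F : Multiset (Finset E), (∀ C ∈ F, G.IsCircuit C) ∧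
      ∀ e, F.countP (fun C => e ∈ C) = w e :=
  Pool.Agent.H88.God.three_main G w heul k hk h

end Pool.Agent.Results.MP_2c3f2e_co.ThreeTrails
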